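import Pool.Agent.helper53.SP4.Spec

set_option autoImplicit false

namespace Pool.Agent.SP4

open Pool.Agent.GS

theorem S4F_lin {F : Type} [Field F] (α β : F) (a b w : Fin 4 → F) :
    B (α • a + β • b) w = α * B a w + β * B b w := by
  unfold B
  simp only [Pi.add_apply, Pi.smul_apply, smul_eq_mul]
  ring

theorem S4F_lin' {F : Type} [Field F] (α β : F) (a b w : Fin 4 → F) :
    B w (α • a + β • b) = α * B w a + β * B w b := by
  unfold B
  simp only [Pi.add_apply, Pi.smul_apply, smul_eq_mul]
  ring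

theorem S4F (hS4B : S4B_stmt) (hS4U : S4U_stmt) (hS4X : S4X_stmt) (hS4M : S4M_stmt) : S4F_stmt := by
  intro F _ _ _ x hSw hxx v hv
  obtain ⟨hb1, hb2, -, -, hb5, -, -, -, hb9, -, -, hb12⟩ := hS4B F
  obtain ⟨t, ht, -⟩ := hb5 v
  obtain ⟨a, b, hab, hA⟩ := (hS4X F x hSw).1 v t hv ht
  by_cases hvab : v ∈ Sn a b
  · obtain ⟨b', hP, hSn, hiff⟩ := hS4U F a b v hab hvab hv
    refine ⟨v, b', ⟨hP, fun t' ht' => ?_⟩, Submodule.subset_span (by simp)⟩
    have h1 : t' = t := (hb9 v v t' t).1 ht' ht
    rw [h1]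
    exact (hiff (x t)).1 hA
  · have hxxt : x (x t) = t := by
      have h := congrArg (fun f : MulAut (SG F) => f t) hxx
      exact h
    set u : Fin 4 → F := B b v • a + B a v • b with hu
    have huSn : u ∈ Sn a b := by
      refine Submodule.add_mem _ (Submodule.smul_mem _ _ (Submodule.subset_span (by simp)))
        (Submodule.smul_mem _ _ (Submodule.subset_span (by simp)))
    have hnz : ¬ (B b v = 0 ∧ B a v = 0) := fun h => hvab (hb12 a b v hab h.2 h.1)
    have hu0 : u ≠ 0 := by
      intro h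
      have h2 := LinearIndependent.pair_iff.1 hab.1 (B b v) (B a v) h
      exact hnz h2
    have huv : B u v = 0 := by
      rw [hu, S4F_lin, mul_comm (B a v)]
      exact CharTwo.add_self_eq_zero _
    obtain ⟨τ, hτ, -⟩ := hb5 u
    obtain ⟨c, d, hcd, hC⟩ := (hS4X F x hSw).1 u τ hu0 hτ
    -- commutation
    have hM := hS4M F
    have h1 : τ * t = t * τ := ((hM u v a b a b τ t (x t) (x t) hu0 hv hab hab hτ ht hA hA).1).2 huv
    have h2 : τ * x t = x t * τ := ((hM u v a b a b τ t (x t) (x t) hu0 hv hab hab hτ ht hA hA).2.1).2 huSn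
    have h3 : x τ * x t = x t * x τ := by
      rw [← map_mul, ← map_mul, h1]
    have h4 : x τ * t = t * x τ := by
      have h5 := congrArg x h2
      rw [map_mul, map_mul, hxxt] at h5
      exact h5
    obtain ⟨m, hm0, hm1, hm2⟩ :=
      ((hM u v c d a b τ t (x τ) (x t) hu0 hv hcd hab hτ ht hC hA).2.2).1 h3
    have hvcd : v ∈ Sn c d := ((hM v u c d a b t τ (x τ) (x t) hv hu0 hcd hab ht hτ hC hA).2.1).1 h4.symm
    -- `m` is a multiple of `u`
    have hvm : B v m = 0 := by
      obtain ⟨α, β, h6⟩ := Submodule.mem_span_pair.1 hvcd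
      obtain ⟨γ, δ, h7⟩ := Submodule.mem_span_pair.1 hm1
      rw [← h6, ← h7, S4F_lin, S4F_lin', S4F_lin', hb1, hb1, hb2 d c, hcd.2]
      ring
    obtain ⟨α, β, hmab⟩ := Submodule.mem_span_pair.1 hm2
    have hrel : α * B a v = β * B b v := by
      rw [← hmab, S4F_lin', hb2 v a, hb2 v b] at hvm
      have h8 := eq_neg_of_add_eq_zero_left hvm
      rw [h8]
      exact CharTwo.neg_eq _
    have hucd : u ∈ Sn c d := by
      by_cases hbv : B b v = 0
      · have hav : B a v ≠ 0 := fun h => hnz ⟨hbv, h⟩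
        rw [hbv, mul_zero] at hrel
        have hα : α = 0 := (mul_eq_zero.1 hrel).resolve_right hav
        rw [hα, zero_smul, zero_add] at hmab
        have hβ : β ≠ 0 := by
          intro h
          rw [h, zero_smul] at hmab
          exact hm0 hmab.symm
        have e1 : u = (B a v * β⁻¹) • m := by
          rw [hu, hbv, zero_smul, zero_add, ← hmab, smul_smul, mul_assoc, inv_mul_cancel₀ hβ, mul_one]
        rw [e1]
        exact Submodule.smul_mem _ _ hm1
      · have hα : α ≠ 0 := by
          intro h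
          rw [h, zero_mul] at hrel
          have hβ : β = 0 := (mul_eq_zero.1 hrel.symm).resolve_right hbv
          rw [h, hβ, zero_smul, zero_smul, add_zero] at hmab
          exact hm0 hmab.symm
        have e1 : u = (B b v * α⁻¹) • m := by
          rw [hu, ← hmab, smul_add, smul_smul, smul_smul, mul_assoc, inv_mul_cancel₀ hα, mul_one]
          congr 2
          rw [mul_right_comm, mul_comm (B b v) β, ← hrel, mul_comm α, mul_assoc, mul_inv_cancel₀ hα, mul_one]
        rw [e1]
        exact Submodule.smul_mem _ _ hm1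
    obtain ⟨b', hP, hSn, hiff⟩ := hS4U F c d u hcd hucd hu0
    refine ⟨u, b', ⟨hP, fun t' ht' => ?_⟩, ?_⟩
    · have h9 : t' = τ := (hb9 u u t' τ).1 ht' hτ
      rw [h9]
      exact (hiff (x τ)).1 hC
    · rw [hSn]
      exact hvcd

end Pool.Agent.SP4
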